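import Pool.Agent.Helper33.FL.Steps

/-!
# MP_4f2508_an: slow variation of the six flatness sequences
-/

namespace Pool.Agent.Results.MP_4f2508_an.LimitIntervals

open Filter Topology Pool.Agent.Helper33.FL

/-- The sequence `u` is bounded, its consecutive differences tend to `0`, and its set of limit
points is a nonempty closed interval `[s, t]`. -/
def Slow (u : ℕ → ℝ) : Prop :=
  BddAbove (Set.range u) ∧ BddBelow (Set.range u) ∧
  Tendsto (fun n => u (n + 1) - u n) atTop (𝓝 0) ∧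
  ∃ s t : ℝ, s ≤ t ∧ {x | MapClusterPt x atTop u} = Set.Icc s t

theorem slow_of {u : ℕ → ℝ} {a b : ℝ}
    (h : ∀ n : ℕ, |u n - u (n + 1)| ≤ 8 / Real.sqrt (n + 1)) (hlow : ∀ n, a ≤ u n)
    (hup : ∀ ε > 0, ∃ N : ℕ, ∀ n, N ≤ n → u n ≤ b + ε) : Slow u := by
  obtain ⟨s, t, _, hst, _, hc⟩ := cluster_Icc u a b hlow hup (tendsto_diff h)
  refine ⟨?_, ⟨a, ?_⟩, tendsto_diff h, s, t, hst, hc⟩
  · obtain ⟨N, hN⟩ := hup 1 one_pos
    have hb : IsBoundedUnder (· ≤ ·) atTop u :=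
      ⟨b + 1, by rw [eventually_map]; exact eventually_atTop.mpr ⟨N, hN⟩⟩
    exact hb.bddAbove_range
  · rintro _ ⟨n, rfl⟩
    exact hlow n

theorem result :
    Slow (fun n => MM U n) ∧ Slow (fun n => mm U n) ∧ Slow (fun n => WW U n) ∧
    Slow (fun k => MM UStar (2 * k)) ∧ Slow (fun k => mm UStar (2 * k)) ∧
    Slow (fun k => WW UStar (2 * k)) := by
  refine ⟨?_, ?_, ?_, ?_, ?_, ?_⟩
  · exact slow_of (fun n => (steps_U n).1) (fun n => MM_ge sub_U (U_nonempty n)) MM_U_le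
  · exact slow_of (fun n => (steps_U n).2.1) (fun n => mm_nonneg n)
      (b := 1) (fun ε hε => ⟨0, fun n _ => (mm_le sub_U (U_nonempty n)).trans (by linarith)⟩)
  · refine slow_of (b := Real.sqrt 2) (fun n => (steps_U n).2.2) (fun n => WW_nonneg sub_U n)
      (fun ε hε => ?_)
    obtain ⟨N, hN⟩ := MM_U_le ε hε
    exact ⟨N, fun n hn => (WW_le sub_U (U_nonempty n)).trans (hN n hn)⟩
  · refine slow_of (b := Real.sqrt 2) (fun n => (steps_UStar n).1)
      (fun n => MM_ge sub_UStar (UStar_nonempty n)) (fun ε hε => ?_)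
    obtain ⟨N, hN⟩ := MM_UStar_le ε hε
    exact ⟨N, fun n hn => (hN n hn).1⟩
  · exact slow_of (fun n => (steps_UStar n).2.1) (fun n => mm_nonneg _)
      (b := 1)
      (fun ε hε => ⟨0, fun n _ => (mm_le sub_UStar (UStar_nonempty n)).trans (by linarith)⟩)
  · refine slow_of (b := Real.sqrt 2) (fun n => (steps_UStar n).2.2)
      (fun n => WW_nonneg sub_UStar _) (fun ε hε => ?_)
    obtain ⟨N, hN⟩ := MM_UStar_le ε hε
    exact ⟨N, fun n hn => (WW_le sub_UStar (UStar_nonempty n)).trans (hN n hn).1⟩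

end Pool.Agent.Results.MP_4f2508_an.LimitIntervals
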