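import Pool.Agent.Helper33.FL.Steps

/-!
# MP_4f2508_an: limsup M_n and limsup M_n^* are at most sqrt 2
-/

namespace Pool.Agent.Results.MP_4f2508_an.SqrtTwo

open Filter Pool.Agent.Helper33.FL

theorem result :
    (∀ ε > 0, ∀ᶠ m : ℕ in atTop, MM UStar (2 * m) ≤ Real.sqrt 2 + ε) ∧
    (∀ ε > 0, ∀ᶠ n : ℕ in atTop, MM U n ≤ Real.sqrt 2 + ε) := by
  refine ⟨fun ε hε => ?_, fun ε hε => ?_⟩
  · obtain ⟨N, hN⟩ := MM_UStar_le ε hε
    exact eventually_atTop.mpr ⟨N, fun n hn => (hN n hn).1⟩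
  · obtain ⟨N, hN⟩ := MM_U_le ε hε
    exact eventually_atTop.mpr ⟨N, hN⟩

end Pool.Agent.Results.MP_4f2508_an.SqrtTwo
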